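import Pool.Agent.Helper79.AL.St2

set_option autoImplicit false

namespace Pool.Agent.Helper81.AL

open Matrix ComplexConjugate Pool.Agent.Helper94.YG
open Pool.Agent.Helper94.YF hiding StORB
open Pool.Agent.Helper89.OS Pool.Agent.Helper89.OC Pool.Agent.Helper79.AL

theorem hADJ : StADJ := by
  intro hDZ hVPF hVPT hNAJ hFCA hFCB hGLA hLKN I _ _ Z p q b b' X X' A hX hX' hbb hq hA
  have hb' : b' * b' = b' := hX'.idp.idem
  have hb : b * b = b := hX.idp.idem
  have hqp : q.Prime := X'.prime
  have hq0 : (q : ℂ) ≠ 0 := by exact_mod_cast hqp.ne_zero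
  constructor
  · intro hqA l hl
    have key : ∀ j, X.y j ≠ 0 → X.t j ≠ 1 → Fx Z b' (ev j) := by
      intro j hy htj
      have hd : q ∣ X'.d j := by
        rw [hX'.d, ← hX.d, hA j hy htj]; exact hqA
      obtain ⟨h1, h2⟩ := hDZ I q X' hq j hd
      constructor
      · funext i
        have h3 : (Z.rho (s2 b') *ᵥ ev j) i = Z.rho (s2 b') i j := by
          simp [Matrix.mulVec, dotProduct, ev]
        rw [h3]
        have h4 : (q : ℂ) * Z.rho (s2 b') i j = X'.s i j := by
          rw [hX'.s]
        have h5 : X'.s i j = if j = i then (q : ℂ) else 0 := by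
          rw [X'.s_symm, h2 i]
          by_cases h : i = j
          · simp [h]
          · simp [h, Ne.symm h]
        have h6 : (q : ℂ) * Z.rho (s2 b') i j = q * (if j = i then 1 else 0) := by
          rw [h4, h5]; simp
        have h7 := mul_left_cancel₀ hq0 h6
        rw [h7]
        simp only [ev]
        by_cases h : i = j
        · simp [h]
        · simp [h, Ne.symm h]
      · intro k hk
        have hkj : k = j := by
          by_contra h
          exact hk (by simp [ev, h])
        rw [hkj, ← hX'.t]
        exact h1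
    have hv := hVPF hFCA hFCB I Z p b b' X hX hb' hbb key
    have h8 := hVPT hFCA hFCB I Z p b b' X hX hb' hbb hv l hl
    rw [hX'.t]
    exact h8
  · intro h
    have hn := hNAJ hFCA hFCB hGLA hLKN I Z q b b' X' hX' hb hbb (fun l hl => by
      rw [← hX'.t]
      exact h l (by rw [hX.t]; exact hl))
    refine ⟨?_, ?_⟩
    · obtain ⟨j, hj1, hj2⟩ := X.ex
      have hj3 : X.t j ≠ 1 := by
        intro h1
        exact hj2 (by rw [h1, one_pow])
      have h9 := (hn j (by rw [← hX.t]; exact hj3)).2
      rw [← hA j hj1 hj3, hX.d]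
      exact h9
    · refine hVPF hFCA hFCB I Z p b b' X hX hb' hbb (fun j _ hj => (hn j ?_).1)
      rw [← hX.t]
      exact hj

end Pool.Agent.Helper81.AL
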